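import Mathlib

/-!
# The exponential equation behind 2-near perfect numbers `2 ^ k * p ^ m`

Helper lemmas: all solutions of `(2^(k+1) - 1) * (1 + p + ⋯ + p^m) = 2^(k+1) p^m + 2^a p^b + 2^c p^d`.
-/

set_option autoImplicit false

namespace Pool.Agent.R464.TwoNear

/-- `S p n = 1 + p + ⋯ + p ^ n`. -/
def S (p : ℤ) : ℕ → ℤ
  | 0 => 1
  | n + 1 => 1 + p * S p n

theorem S_succ' (p : ℤ) (n : ℕ) : S p (n + 1) = S p n + p ^ (n + 1) := by
  induction n with
  | zero => simp [S]
  | succ n ih =>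
    have h1 : S p (n + 1 + 1) = 1 + p * S p (n + 1) := rfl
    have h2 : S p (n + 1) = 1 + p * S p n := rfl
    calc S p (n + 1 + 1) = 1 + p * (S p n + p ^ (n + 1)) := by rw [h1, ih]
      _ = 1 + p * S p n + p ^ (n + 1 + 1) := by ring
      _ = S p (n + 1) + p ^ (n + 1 + 1) := by rw [h2]

theorem S_eq_sum (p : ℤ) (n : ℕ) : S p n = ∑ i ∈ Finset.range (n + 1), p ^ i := by
  induction n with
  | zero => simp [S]
  | succ n ih => rw [S_succ', ih, Finset.sum_range_succ _ (n + 1)]

theorem S_mul (p : ℤ) (n : ℕ) : (p - 1) * S p n = p ^ (n + 1) - 1 := by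
  induction n with
  | zero => simp [S]
  | succ n ih => rw [S_succ', mul_add, ih]; ring

theorem S_pos {p : ℤ} (hp : 0 < p) (n : ℕ) : 1 ≤ S p n := by
  induction n with
  | zero => simp [S]
  | succ n ih => 
    have : 0 ≤ p * S p n := by positivity
    simp only [S]; linarith

theorem S_succ_ge {p : ℤ} (hp : 0 < p) (n : ℕ) : 1 + p ≤ S p (n + 1) := by
  have := S_pos hp n
  have h2 : p * 1 ≤ p * S p n := by gcongr
  simp only [S]; linarith

theorem S_succ2_ge {p : ℤ} (hp : 0 < p) (n : ℕ) : 1 + p + p ^ 2 ≤ S p (n + 2) := by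
  have := S_succ_ge hp n
  have h2 : p * (1 + p) ≤ p * S p (n + 1) := by gcongr
  have h3 : S p (n + 2) = 1 + p * S p (n + 1) := rfl
  rw [h3]; linarith [h2, sq p]

theorem eq_of_dvd_sub {p x y : ℤ} (h : p ∣ x - y) (h1 : x - y < p) (h2 : y - x < p) : x = y := by
  have : x - y = 0 := Int.eq_zero_of_abs_lt_dvd h (abs_lt.mpr ⟨by linarith, h1⟩)
  linarith

/-- The case `2 ^ (k + 1) < 2 p`. -/
theorem caseI {p t A C : ℤ} {M b d : ℕ} (hp : 3 ≤ p) (ht : 0 < t) (htp : t < p)
    (hC : 1 ≤ C) (hA2 : 2 * A ≤ t + p) (hC2 : 2 * C ≤ t + p) (hM : 2 ≤ M)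
    (hdb : d ≤ b) (hne : ¬ (A = C ∧ b = d)) (h : t * S p M = 1 + A * p ^ b + C * p ^ d) :
    M = 2 ∧ t = 1 ∧ A = 1 ∧ b = 2 ∧ C = 1 ∧ d = 1 := by
  obtain ⟨M, rfl⟩ : ∃ M', M = M' + 2 := ⟨M - 2, by omega⟩
  have hp0 : (0 : ℤ) < p := by linarith
  have hS2 : S p (M + 2) = 1 + p * S p (M + 1) := rfl
  have hS1 : S p (M + 1) = 1 + p * S p M := rfl
  have hS0 := S_pos hp0 M
  have hS2' := S_succ2_ge hp0 M
  rcases Nat.eq_zero_or_pos d with rfl | hd
  · -- d = 0
    rcases Nat.eq_zero_or_pos b with rfl | hb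
    · exfalso
      simp only [pow_zero, mul_one] at h
      nlinarith
    · exfalso
      obtain ⟨b, rfl⟩ : ∃ b', b = b' + 1 := ⟨b - 1, by omega⟩
      simp only [pow_zero, mul_one] at h
      have hdvd : p ∣ t - (1 + C) := ⟨A * p ^ b - t * S p (M + 1), by
        rw [hS2] at h; linear_combination h⟩
      have htC : t = 1 + C := eq_of_dvd_sub hdvd (by linarith) (by linarith)
      have h2 : t * S p (M + 1) = A * p ^ b := by
        have : p * (t * S p (M + 1)) = p * (A * p ^ b) := by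
          rw [hS2] at h; linear_combination h - htC
        exact mul_left_cancel₀ hp0.ne' this
      rcases Nat.eq_zero_or_pos b with rfl | hb'
      · have := S_succ_ge hp0 M
        simp only [pow_zero, mul_one] at h2
        nlinarith
      · obtain ⟨b, rfl⟩ : ∃ b', b = b' + 1 := ⟨b - 1, by omega⟩
        have : p ∣ t - 0 := ⟨A * p ^ b - t * S p M, by
          rw [hS1] at h2; linear_combination h2⟩
        have := eq_of_dvd_sub this (by linarith) (by linarith)
        linarith
  · obtain ⟨d, rfl⟩ : ∃ d', d = d' + 1 := ⟨d - 1, by omega⟩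
    obtain ⟨b, rfl⟩ : ∃ b', b = b' + 1 := ⟨b - 1, by omega⟩
    have hdvd : p ∣ t - 1 := ⟨A * p ^ b + C * p ^ d - t * S p (M + 1), by
        rw [hS2] at h; linear_combination h⟩
    have ht1 : t = 1 := eq_of_dvd_sub hdvd (by linarith) (by linarith)
    subst ht1
    have h2 : S p (M + 1) = A * p ^ b + C * p ^ d := by
      have : p * (S p (M + 1)) = p * (A * p ^ b + C * p ^ d) := by
        rw [hS2] at h; linear_combination h
      exact mul_left_cancel₀ hp0.ne' this
    rcases Nat.eq_zero_or_pos d with rfl | hd'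
    · rcases Nat.eq_zero_or_pos b with rfl | hb'
      · exfalso
        have := S_succ_ge hp0 M
        simp only [pow_zero, mul_one] at h2
        have hAC : A = C := by linarith
        exact hne ⟨hAC, rfl⟩
      · obtain ⟨b, rfl⟩ : ∃ b', b = b' + 1 := ⟨b - 1, by omega⟩
        simp only [pow_zero, mul_one] at h2
        have hdvd : p ∣ C - 1 := ⟨S p M - A * p ^ b, by
          rw [hS1] at h2; linear_combination -h2⟩
        have hC1 : C = 1 := eq_of_dvd_sub hdvd (by linarith) (by linarith)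
        subst hC1
        have h3 : S p M = A * p ^ b := by
          have : p * (S p M) = p * (A * p ^ b) := by
            rw [hS1] at h2; linear_combination h2
          exact mul_left_cancel₀ hp0.ne' this
        rcases Nat.eq_zero_or_pos M with rfl | hM'
        · simp only [S] at h3
          rcases Nat.eq_zero_or_pos b with rfl | hb'
          · simp only [pow_zero, mul_one] at h3
            exact ⟨rfl, rfl, h3.symm, rfl, rfl, rfl⟩
          · exfalso
            obtain ⟨b, rfl⟩ : ∃ b', b = b' + 1 := ⟨b - 1, by omega⟩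
            have : p ∣ 1 - 0 := ⟨A * p ^ b, by linear_combination h3⟩
            have := eq_of_dvd_sub this (by linarith) (by linarith)
            linarith
        · exfalso
          obtain ⟨M, rfl⟩ : ∃ b', M = b' + 1 := ⟨M - 1, by omega⟩
          have h4 : S p (M + 1) = 1 + p * S p M := rfl
          rcases Nat.eq_zero_or_pos b with rfl | hb'
          · have := S_succ_ge hp0 M
            simp only [pow_zero, mul_one] at h3
            linarith
          · obtain ⟨b, rfl⟩ : ∃ b', b = b' + 1 := ⟨b - 1, by omega⟩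
            have : p ∣ 1 - 0 := ⟨A * p ^ b - S p M, by
              rw [h4] at h3; linear_combination h3⟩
            have := eq_of_dvd_sub this (by linarith) (by linarith)
            linarith
    · exfalso
      obtain ⟨d, rfl⟩ : ∃ d', d = d' + 1 := ⟨d - 1, by omega⟩
      obtain ⟨b, rfl⟩ : ∃ b', b = b' + 1 := ⟨b - 1, by omega⟩
      have : p ∣ 1 - 0 := ⟨A * p ^ b + C * p ^ d - S p M, by
        rw [hS1] at h2; linear_combination h2⟩
      have := eq_of_dvd_sub this (by linarith) (by linarith)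
      linarith

/-- Both exponents of `p` cannot be small. -/
theorem caseII_low {p X A C : ℤ} {N b d : ℕ} (hp : 3 ≤ p) (hX : 2 * p < X)
    (hA2 : 2 * A ≤ X) (hC2 : 2 * C ≤ X) (hA : 0 < A) (hC : 0 < C) (hb : b ≤ N) (hd : d ≤ N)
    (h : (X - p) * S p (N + 1) = 1 + A * p ^ b + C * p ^ d) : False := by
  have hp0 : (0 : ℤ) < p := by linarith
  have h1 : p ^ b ≤ p ^ N := pow_le_pow_right₀ (by linarith) hb
  have h2 : p ^ d ≤ p ^ N := pow_le_pow_right₀ (by linarith) hd
  have h3 : S p (N + 1) = S p N + p ^ (N + 1) := S_succ' p N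
  have h4 := S_pos hp0 N
  have h5 : (1 : ℤ) ≤ p ^ N := one_le_pow₀ (by linarith)
  have h6 : p ^ (N + 1) = p * p ^ N := by ring
  have h7 : A * p ^ b ≤ A * p ^ N := by gcongr
  have h8 : C * p ^ d ≤ C * p ^ N := by gcongr
  have h9 : (X - p) * (3 * p ^ N) ≤ (X - p) * (p * p ^ N) := by
    have : (0 : ℤ) ≤ X - p := by linarith
    gcongr
  have h10 : (X - p) * 1 ≤ (X - p) * S p N := by
    have : (0 : ℤ) ≤ X - p := by linarith
    gcongr
  have h11 : (2 * A) * p ^ N ≤ X * p ^ N := by gcongr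
  have h12 : (2 * C) * p ^ N ≤ X * p ^ N := by gcongr
  have h13 : (2 * p) * p ^ N < X * p ^ N := by gcongr
  rw [h3, h6] at h
  have h14 : 3 * X * p ^ N ≤ 3 * p * p ^ N + X * p ^ N := by nlinarith
  nlinarith

/-- The largest exponent of `p` equals `m - 1`, the other one is smaller. -/
theorem caseII_B1 {p X A C : ℤ} {N d : ℕ} (hp : 3 ≤ p) (hX : 2 * p + 2 ≤ X)
    (hA2 : 2 * A ≤ X) (hC2 : 2 * C ≤ X) (hC : 0 < C) (hd : d ≤ N)
    (h : (X - p) * S p (N + 1) = 1 + A * p ^ (N + 1) + C * p ^ d) : False := by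
  have hp0 : (0 : ℤ) < p := by linarith
  have h2 : p ^ d ≤ p ^ N := pow_le_pow_right₀ (by linarith) hd
  have h5 : (1 : ℤ) ≤ p ^ N := one_le_pow₀ (by linarith)
  have h8 : C * p ^ d ≤ C * p ^ N := by gcongr
  have hS := S_mul p (N + 1)
  have e1 : (X - p) * (p ^ (N + 1 + 1) - 1) = (p - 1) * (1 + A * p ^ (N + 1) + C * p ^ d) := by
    rw [← hS, ← h]; ring
  generalize hQ : p ^ N = Q at *
  have e2 : p ^ (N + 1) = p * Q := by rw [← hQ]; ring
  have e3 : p ^ (N + 1 + 1) = p ^ 2 * Q := by rw [← hQ]; ring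
  rw [e2, e3] at e1
  have h9 : (p - 1) * (2 + 2 * A * (p * Q) + 2 * (C * p ^ d)) ≤
      (p - 1) * (2 + X * (p * Q) + X * Q) := by
    have a1 : 2 * A * (p * Q) ≤ X * (p * Q) := by gcongr
    have a2 : 2 * C * Q ≤ X * Q := by gcongr
    have : (0 : ℤ) ≤ p - 1 := by linarith
    exact mul_le_mul_of_nonneg_left (by linarith) this
  have h10 : X * (Q * (p ^ 2 + 1) - 2) ≤ 2 * p ^ 3 * Q - 2 := by linarith
  have h11 : (2 * p + 2) * (Q * (p ^ 2 + 1) - 2) ≤ X * (Q * (p ^ 2 + 1) - 2) := by
    have : (0 : ℤ) ≤ Q * (p ^ 2 + 1) - 2 := by nlinarith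
    gcongr
  nlinarith [sq_nonneg p]

/-- Both exponents equal `m - 1`. -/
theorem caseII_B2 {p X A C : ℤ} {M : ℕ} (hp : 3 ≤ p) (hX : 2 * p + 2 ≤ X) (hM : 2 ≤ M)
    (hAC : 4 * (A + C) ≤ 3 * X)
    (h : (X - p) * S p M = 1 + A * p ^ M + C * p ^ M) : False := by
  have hp0 : (0 : ℤ) < p := by linarith
  obtain ⟨N, rfl⟩ : ∃ N, M = N + 2 := ⟨M - 2, by omega⟩
  have h5 : (1 : ℤ) ≤ p ^ N := one_le_pow₀ (by linarith)
  have hS := S_mul p (N + 2)
  have e1 : (X - p) * (p ^ (N + 2 + 1) - 1) =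
      (p - 1) * (1 + A * p ^ (N + 2) + C * p ^ (N + 2)) := by
    rw [← hS, ← h]; ring
  generalize hQ : p ^ N = Q at *
  have e2 : p ^ (N + 2) = p ^ 2 * Q := by rw [← hQ]; ring
  have e3 : p ^ (N + 2 + 1) = p ^ 3 * Q := by rw [← hQ]; ring
  rw [e2, e3] at e1
  obtain ⟨V, hV⟩ : ∃ V, V = X * p - p ^ 2 - (p - 1) * (A + C) := ⟨_, rfl⟩
  have e4 : p ^ 2 * Q * V = X - 1 := by rw [hV]; linear_combination e1
  have hV1 : 1 ≤ V := by
    have : 0 < p ^ 2 * Q * V := by rw [e4]; linarith
    have : 0 < V := by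
      by_contra hcon
      push Not at hcon
      have : p ^ 2 * Q * V ≤ 0 := mul_nonpos_of_nonneg_of_nonpos (by positivity) hcon
      linarith
    linarith
  have e5 : p ^ 2 * V ≤ X - 1 := by
    have : p ^ 2 * 1 * V ≤ p ^ 2 * Q * V := by gcongr
    linarith
  have e6 : p ^ 2 * 1 ≤ p ^ 2 * V := by gcongr
  have e7 : X * (p + 3) - 4 * p ^ 2 ≤ 4 * V := by
    have : (p - 1) * (4 * (A + C)) ≤ (p - 1) * (3 * X) := by
      have : (0 : ℤ) ≤ p - 1 := by linarith
      gcongr
    rw [hV]; linarith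
  have e8 : p ^ 2 * (X * (p + 3) - 4 * p ^ 2) ≤ p ^ 2 * (4 * V) := by gcongr
  have e9 : X * (p ^ 2 * (p + 3) - 4) ≤ 4 * p ^ 4 - 4 := by linarith
  have e10 : (1 + p ^ 2) * (p ^ 2 * (p + 3) - 4) ≤ X * (p ^ 2 * (p + 3) - 4) := by
    have : (0 : ℤ) ≤ p ^ 2 * (p + 3) - 4 := by nlinarith [sq_nonneg p]
    gcongr
    linarith
  have e11 : p ^ 2 * (3 + 3) - 4 ≤ p ^ 2 * (p + 3) - 4 := by gcongr
  have e12 : (1 + p ^ 2) * (p ^ 2 * (3 + 3) - 4) ≤ (1 + p ^ 2) * (p ^ 2 * (p + 3) - 4) := by
    gcongr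
  nlinarith [sq_nonneg p, sq_nonneg (p ^ 2)]

/-- Setting of the case in which the larger exponent of `p` is `m`. Here `X = A * E`. -/
theorem caseII_A_bound {p X A E Y : ℤ} (hp : 3 ≤ p) (hpo : Odd p) (hA : 0 < A) (hE : Even E)
    (hXA : X = A * E) (hY : Y = X - p - (p - 1) * A) (hY1 : 1 ≤ Y) :
    2 * A ≤ Y + p ∧ (p + 1) * A ≤ X := by
  have e1 : A * (E - p + 1) = Y + p := by rw [hY, hXA]; ring
  have e2 : 0 < E - p + 1 := by
    by_contra hcon
    push Not at hcon
    have : A * (E - p + 1) ≤ 0 := mul_nonpos_of_nonneg_of_nonpos hA.le hcon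
    linarith
  have e3 : E ≠ p := by
    rintro rfl
    exact (Int.not_even_iff_odd.mpr hpo) hE
  have e4 : p + 1 ≤ E := by
    have : p ≤ E := by linarith
    have := lt_of_le_of_ne this e3.symm
    linarith
  constructor
  · have : A * 2 ≤ A * (E - p + 1) := by
      apply mul_le_mul_of_nonneg_left _ hA.le
      linarith
    linarith
  · have : A * (p + 1) ≤ A * E := by gcongr
    rw [hXA]; linarith

/-- `Y` is positive. -/
theorem Y_pos {p X A C : ℤ} {M d : ℕ} (hp : 3 ≤ p) (hX : 2 * p + 2 ≤ X) (hC : 0 < C)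
    (h : p ^ (M + 1) * (X - p - (p - 1) * A) = X - 1 + (p - 1) * C * p ^ d) :
    1 ≤ X - p - (p - 1) * A := by
  have h1 : 0 < (p - 1) * C * p ^ d := by
    have : (0 : ℤ) < p - 1 := by linarith
    have : (0 : ℤ) < p := by linarith
    positivity
  have h2 : 0 < p ^ (M + 1) * (X - p - (p - 1) * A) := by rw [h]; linarith
  have h3 : (0 : ℤ) < p ^ (M + 1) := by
    have : (0 : ℤ) < p := by linarith
    positivity
  have := (pos_iff_pos_of_mul_pos h2).mp h3
  linarith

/-- Both exponents of `p` equal `m`. -/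
theorem caseII_A_eq {p X A C E G : ℤ} {M : ℕ} (hp : 3 ≤ p) (hpo : Odd p) (hX : 2 * p + 2 ≤ X)
    (hM : 2 ≤ M) (hA : 0 < A) (hC : 0 < C) (hAC : A ∣ C)
    (hXA : X = A * E) (hG : Even G) (hXC : X = C * G)
    (h : p ^ (M + 1) * (X - p - (p - 1) * A) = X - 1 + (p - 1) * C * p ^ (M + 1)) : False := by
  have hp0 : (0 : ℤ) < p := by linarith
  obtain ⟨N, rfl⟩ : ∃ N, M = N + 2 := ⟨M - 2, by omega⟩
  have h5 : (1 : ℤ) ≤ p ^ N := one_le_pow₀ (by linarith)
  generalize hQ : p ^ N = Q at *
  have e3 : p ^ (N + 2 + 1) = p ^ 3 * Q := by rw [← hQ]; ring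
  rw [e3] at h
  obtain ⟨Z, hZ⟩ : ∃ Z, Z = X - p - (p - 1) * (A + C) := ⟨_, rfl⟩
  have e4 : p ^ 3 * Q * Z = X - 1 := by rw [hZ]; linear_combination h
  have hZ1 : 1 ≤ Z := by
    have h0 : 0 < p ^ 3 * Q * Z := by rw [e4]; linarith
    have h1 : 0 < p ^ 3 * Q := by positivity
    have := (pos_iff_pos_of_mul_pos h0).mp h1
    linarith
  have e5 : p ^ 3 * Z ≤ X - 1 := by
    have : p ^ 3 * 1 * Z ≤ p ^ 3 * Q * Z := by gcongr
    linarith
  -- `A ≤ Z + p`
  have e6 : A ≤ Z + p := by
    apply Int.le_of_dvd (by linarith)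
    have : Z + p = X - (p - 1) * A - (p - 1) * C := by rw [hZ]; ring
    rw [this, hXA]
    apply dvd_sub
    · apply dvd_sub (dvd_mul_right _ _) (dvd_mul_left _ _)
    · exact Dvd.dvd.mul_left hAC _
  -- `2 C ≤ Z + p + (p - 1) A`
  have e7 : C * (G - p + 1) = Z + p + (p - 1) * A := by rw [hZ, hXC]; ring
  have e8 : 0 < G - p + 1 := by
    have h0 : 0 < C * (G - p + 1) := by
      rw [e7]
      have : (0 : ℤ) ≤ p - 1 := by linarith
      have : 0 ≤ (p - 1) * A := by positivity
      linarith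
    exact (pos_iff_pos_of_mul_pos h0).mp hC
  have e9 : G ≠ p := by
    rintro rfl
    exact (Int.not_even_iff_odd.mpr hpo) hG
  have e10 : p + 1 ≤ G := by
    have : p ≤ G := by linarith
    have := lt_of_le_of_ne this e9.symm
    linarith
  have e11 : C * 2 ≤ Z + p + (p - 1) * A := by
    rw [← e7]
    apply mul_le_mul_of_nonneg_left _ hC.le
    linarith
  have hp1 : (0 : ℤ) ≤ p - 1 := by linarith
  have e12 : (p - 1) * A ≤ (p - 1) * (Z + p) := by gcongr
  have e13 : (p - 1) * (C * 2) ≤ (p - 1) * (p * (Z + p)) := by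
    apply mul_le_mul_of_nonneg_left _ hp1
    linarith
  have e14 : 2 * X ≤ (Z + p) * (p ^ 2 + p) := by
    have : 2 * X = 2 * (Z + p) + 2 * ((p - 1) * A) + (p - 1) * (C * 2) := by rw [hZ]; ring
    rw [this]; linarith
  have e15 : (2 * p ^ 3 - p ^ 2 - p) * 1 ≤ (2 * p ^ 3 - p ^ 2 - p) * Z := by
    have : 0 ≤ 2 * p ^ 3 - p ^ 2 - p := by nlinarith [sq_nonneg p]
    gcongr
  have e16 : 0 < (p - 2) * (p ^ 2 - 1) := by
    have : (0 : ℤ) < p - 2 := by linarith
    have : (0 : ℤ) < p ^ 2 - 1 := by nlinarith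
    positivity
  linarith

/-- `b = m`, `d ≤ m - 3`. -/
theorem caseII_A_3 {p X A C E : ℤ} {N d : ℕ} (hp : 3 ≤ p) (hpo : Odd p) (hX : 2 * p + 2 ≤ X)
    (hd : d ≤ N) (hA : 0 < A) (hC : 0 < C) (hE : Even E) (hXA : X = A * E) (hC2 : 2 * C ≤ X)
    (h : p ^ (N + 2 + 1) * (X - p - (p - 1) * A) = X - 1 + (p - 1) * C * p ^ d) : False := by
  have hp0 : (0 : ℤ) < p := by linarith
  have hp1 : (0 : ℤ) ≤ p - 1 := by linarith
  have h2 : p ^ d ≤ p ^ N := pow_le_pow_right₀ (by linarith) hd
  have h5 : (1 : ℤ) ≤ p ^ N := one_le_pow₀ (by linarith)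
  have hX0 : (0 : ℤ) ≤ X := by linarith
  have hY1 := Y_pos (M := N + 2) hp hX hC h
  obtain ⟨Y, hY⟩ : ∃ Y, Y = X - p - (p - 1) * A := ⟨_, rfl⟩
  rw [← hY] at hY1 h
  obtain ⟨-, hb⟩ := caseII_A_bound hp hpo hA hE hXA hY hY1
  have e1 : (p - 1) * (2 * C * p ^ d) ≤ (p - 1) * (X * p ^ N) := by
    have : 2 * C * p ^ d ≤ X * p ^ N := by gcongr
    gcongr
  generalize hQ : p ^ N = Q at *
  have e3 : p ^ (N + 2 + 1) = p ^ 3 * Q := by rw [← hQ]; ring
  rw [e3] at h
  have e4 : 2 * p ^ 3 * Y * Q < (p + 1) * X * Q := by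
    have : X * 1 ≤ X * Q := by gcongr
    linarith
  have e5 : 2 * p ^ 3 * Y < (p + 1) * X := lt_of_mul_lt_mul_right e4 (by linarith)
  have e6 : 2 * X ≤ (p + 1) * (Y + p) := by
    have : (p - 1) * ((p + 1) * A) ≤ (p - 1) * X := by gcongr
    rw [hY]; linarith
  have e7 : (p + 1) * (2 * X) ≤ (p + 1) * ((p + 1) * (Y + p)) := by gcongr
  have e8 : (4 * p ^ 3 - (p + 1) ^ 2) * 1 ≤ (4 * p ^ 3 - (p + 1) ^ 2) * Y := by
    have : (0 : ℤ) ≤ 4 * p ^ 3 - (p + 1) ^ 2 := by nlinarith [sq_nonneg p]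
    gcongr
  have e9 : 4 * p ^ 3 < (p + 1) ^ 3 := by linarith
  nlinarith [sq_nonneg p, mul_nonneg hp0.le hp0.le]

/-- `b = m`, `d = m - 2`. -/
theorem caseII_A_2 {p X A C E : ℤ} {N : ℕ} (hp : 3 ≤ p) (hpo : Odd p) (hX : 2 * p + 2 ≤ X)
    (hA : 0 < A) (hC : 0 < C) (hE : Even E) (hXA : X = A * E) (hC2 : 2 * C ≤ X)
    (h : p ^ (N + 1 + 1 + 1) * (X - p - (p - 1) * A) = X - 1 + (p - 1) * C * p ^ (N + 1)) :
    False := by
  have hp0 : (0 : ℤ) < p := by linarith
  have hp1 : (0 : ℤ) ≤ p - 1 := by linarith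
  have h5 : (1 : ℤ) ≤ p ^ N := one_le_pow₀ (by linarith)
  have hY1 := Y_pos (M := N + 1 + 1) hp hX hC h
  obtain ⟨Y, hY⟩ : ∃ Y, Y = X - p - (p - 1) * A := ⟨_, rfl⟩
  rw [← hY] at hY1 h
  obtain ⟨-, hb⟩ := caseII_A_bound hp hpo hA hE hXA hY hY1
  have e3 : p ^ (N + 1 + 1 + 1) = p ^ 2 * p ^ (N + 1) := by ring
  rw [e3] at h
  obtain ⟨W, hW⟩ : ∃ W, W = p ^ 2 * Y - (p - 1) * C := ⟨_, rfl⟩
  have e4 : X - 1 = p ^ (N + 1) * W := by rw [hW]; linear_combination -h
  have hW1 : 1 ≤ W := by
    have h0 : 0 < p ^ (N + 1) * W := by rw [← e4]; linarith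
    have h1 : 0 < p ^ (N + 1) := by positivity
    have := (pos_iff_pos_of_mul_pos h0).mp h1
    linarith
  rcases Nat.eq_zero_or_pos N with rfl | hN
  · -- m = 3
    simp only [zero_add, pow_one] at e4 h
    have e5 : W * (1 + p + p ^ 2) = C + p ^ 2 * (1 + A) := by
      have : (p - 1) * (W * (1 + p + p ^ 2)) = (p - 1) * (C + p ^ 2 * (1 + A)) := by
        have e6 : (p - 1) * (W * (1 + p + p ^ 2)) = p ^ 2 * (p * W) - W := by ring
        rw [e6, ← e4, hW, hY]; ring
      exact mul_left_cancel₀ (by linarith) this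
    have e6 : 0 < p ^ 2 * (1 + A - W) := by
      have : 2 * C ≤ 1 + p * W := by linarith
      have : 0 < p * W := by positivity
      linarith
    have e7 : 0 < 1 + A - W := (pos_iff_pos_of_mul_pos e6).mp (by positivity)
    have e8 : p * W ≤ p * A := by
      have : W ≤ A := by linarith
      gcongr
    have e9 : A ≤ 1 := by linarith
    have e10 : W ≤ 1 := by linarith
    have e11 : p * W ≤ p * 1 := by gcongr
    linarith
  · obtain ⟨N, rfl⟩ : ∃ N', N = N' + 1 := ⟨N - 1, by omega⟩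
    have h6 : p ^ 2 ≤ p ^ (N + 1 + 1) := pow_le_pow_right₀ (by linarith) (by omega)
    have h60 : 0 < p ^ (N + 1 + 1) := by positivity
    generalize hR : p ^ (N + 1 + 1) = R at *
    have e5 : X * (R * (3 * p ^ 2 + 1) - 2 * (p + 1)) ≤ 2 * p ^ 3 * (p + 1) * R - 2 * (p + 1) := by
      have f1 : (p + 1) * ((p - 1) * (2 * C) * R) ≤ (p + 1) * ((p - 1) * X * R) := by gcongr
      have f2 : (p - 1) * ((p + 1) * A) ≤ (p - 1) * X := by gcongr
      have f3 : 2 * X - p * (p + 1) ≤ (p + 1) * Y := by rw [hY]; linarith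
      have f4 : p ^ 2 * R * (2 * X - p * (p + 1)) ≤ p ^ 2 * R * ((p + 1) * Y) := by gcongr
      have f5 : (p + 1) * (p ^ 2 * R * Y) = (p + 1) * (X - 1 + (p - 1) * C * R) := by rw [h]
      linarith
    have h7 : 1 + p ^ 2 ≤ X := by
      have : R * 1 ≤ R * W := by gcongr
      linarith
    have e6 : (1 + p ^ 2) * (R * (3 * p ^ 2 + 1) - 2 * (p + 1)) ≤
        X * (R * (3 * p ^ 2 + 1) - 2 * (p + 1)) := by
      have : (0 : ℤ) ≤ R * (3 * p ^ 2 + 1) - 2 * (p + 1) := by nlinarith
      gcongr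
    have e7 : R * (p ^ 4 - 2 * p ^ 3 + 4 * p ^ 2 + 1) ≤ 2 * p ^ 2 * (p + 1) := by linarith
    have e8 : p ^ 2 * (p ^ 4 - 2 * p ^ 3 + 4 * p ^ 2 + 1) ≤
        R * (p ^ 4 - 2 * p ^ 3 + 4 * p ^ 2 + 1) := by
      have : (0 : ℤ) ≤ p ^ 4 - 2 * p ^ 3 + 4 * p ^ 2 + 1 := by
        nlinarith [sq_nonneg (p ^ 2 - p), sq_nonneg p]
      gcongr
    have e9 : p ^ 2 * (p ^ 4 - 2 * p ^ 3 + 4 * p ^ 2 + 1 - 2 * (p + 1)) ≤ 0 := by linarith
    have e10 : 0 < p ^ 4 - 2 * p ^ 3 + 4 * p ^ 2 + 1 - 2 * (p + 1) := by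
      nlinarith [sq_nonneg (p ^ 2 - p), sq_nonneg p]
    have : 0 < p ^ 2 * (p ^ 4 - 2 * p ^ 3 + 4 * p ^ 2 + 1 - 2 * (p + 1)) := by positivity
    linarith

/-- `b = m`, `d = m - 1`, `c < a`. -/
theorem caseII_A_1a {p X A C E : ℤ} {N : ℕ} (hp : 3 ≤ p) (hpo : Odd p) (hX : 2 * p + 2 ≤ X)
    (hA : 0 < A) (hC : 0 < C) (hE : Even E) (hXA : X = A * E) (hCA : 2 * C ≤ A)
    (h : p ^ (N + 2 + 1) * (X - p - (p - 1) * A) = X - 1 + (p - 1) * C * p ^ (N + 2)) :
    False := by
  have hp0 : (0 : ℤ) < p := by linarith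
  have hp1 : (0 : ℤ) ≤ p - 1 := by linarith
  have h5 : (1 : ℤ) ≤ p ^ N := one_le_pow₀ (by linarith)
  have hY1 := Y_pos (M := N + 2) hp hX hC h
  obtain ⟨Y, hY⟩ : ∃ Y, Y = X - p - (p - 1) * A := ⟨_, rfl⟩
  rw [← hY] at hY1 h
  obtain ⟨-, hb⟩ := caseII_A_bound hp hpo hA hE hXA hY hY1
  have e3 : p ^ (N + 2 + 1) = p * p ^ (N + 2) := by ring
  rw [e3] at h
  obtain ⟨W, hW⟩ : ∃ W, W = p * Y - (p - 1) * C := ⟨_, rfl⟩
  have e4 : X - 1 = p ^ (N + 2) * W := by rw [hW]; linear_combination -h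
  have hW1 : 1 ≤ W := by
    have h0 : 0 < p ^ (N + 2) * W := by rw [← e4]; linarith
    have h1 : 0 < p ^ (N + 2) := by positivity
    have := (pos_iff_pos_of_mul_pos h0).mp h1
    linarith
  have h6 : p ^ 2 ≤ p ^ (N + 2) := pow_le_pow_right₀ (by linarith) (by omega)
  have e5 : p ^ 2 * W ≤ X - 1 := by rw [e4]; gcongr
  have e6 : p ^ 2 * 1 ≤ p ^ 2 * W := by gcongr
  have e7 : X * (3 * p + 1) ≤ 2 * (p + 1) * (W + p ^ 2) := by
    have f1 : (p + 1) * ((p - 1) * (2 * C)) ≤ (p + 1) * ((p - 1) * A) := by gcongr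
    have f2 : (p - 1) * (2 * p + 1) * ((p + 1) * A) ≤ (p - 1) * (2 * p + 1) * X := by gcongr
    have f3 : (p + 1) * (2 * (p * X)) =
        (p + 1) * (2 * (W + p ^ 2 + p * (p - 1) * A) + (p - 1) * (2 * C)) := by
      rw [hW, hY]; ring
    linarith
  have e8 : p ^ 2 * (X * (3 * p + 1)) ≤ p ^ 2 * (2 * (p + 1) * (W + p ^ 2)) := by gcongr
  have e9 : 2 * (p + 1) * (p ^ 2 * W) ≤ 2 * (p + 1) * (X - 1) := by gcongr
  have e10 : X * (3 * p ^ 3 + p ^ 2 - 2 * p - 2) ≤ 2 * (p + 1) * (p ^ 4 - 1) := by linarith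
  have e11 : (1 + p ^ 2) * (3 * p ^ 3 + p ^ 2 - 2 * p - 2) ≤
      X * (3 * p ^ 3 + p ^ 2 - 2 * p - 2) := by
    have : (0 : ℤ) ≤ 3 * p ^ 3 + p ^ 2 - 2 * p - 2 := by nlinarith [sq_nonneg p]
    gcongr
    linarith
  have e12 : (1 + p ^ 2) * (p ^ 3 - p ^ 2) ≤ 0 := by linarith
  have e13 : 0 < (1 + p ^ 2) * (p ^ 2 * (p - 1)) := by
    have : 0 < p - 1 := by linarith
    positivity
  linarith

/-- `b = m`, `d = m - 1`, `a ≤ c`. Here `C = A * q` and `X = C * G`. -/
theorem caseII_A_1b {p X A q G : ℤ} {N : ℕ} (hp : 3 ≤ p) (hpo : Odd p) (hX : 2 * p + 2 ≤ X)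
    (hX4 : 4 ∣ X) (hA : 0 < A) (hq : 0 < q) (hG : Even G) (hXC : X = A * q * G)
    (h : p ^ (N + 2 + 1) * (X - p - (p - 1) * A) = X - 1 + (p - 1) * (A * q) * p ^ (N + 2)) :
    False := by
  have hp0 : (0 : ℤ) < p := by linarith
  have hp1 : (0 : ℤ) < p - 1 := by linarith
  have hY1 := Y_pos (M := N + 2) hp hX (by positivity) h
  obtain ⟨Y, hY⟩ : ∃ Y, Y = X - p - (p - 1) * A := ⟨_, rfl⟩
  rw [← hY] at hY1 h
  have e3 : p ^ (N + 2 + 1) = p * p ^ (N + 2) := by ring
  rw [e3] at h
  obtain ⟨W, hW⟩ : ∃ W, W = p * Y - (p - 1) * (A * q) := ⟨_, rfl⟩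
  have e4 : X - 1 = p ^ (N + 2) * W := by rw [hW]; linear_combination -h
  have hW1 : 1 ≤ W := by
    have h0 : 0 < p ^ (N + 2) * W := by rw [← e4]; linarith
    have h1 : 0 < p ^ (N + 2) := by positivity
    have := (pos_iff_pos_of_mul_pos h0).mp h1
    linarith
  have h6 : p ^ 2 ≤ p ^ (N + 2) := pow_le_pow_right₀ (by linarith) (by omega)
  have e5 : p ^ 2 * W ≤ X - 1 := by rw [e4]; gcongr
  have hAq : 0 < A * q := by positivity
  have hG0 : 0 < G := by
    have : 0 < A * q * G := by rw [← hXC]; linarith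
    exact (pos_iff_pos_of_mul_pos this).mp hAq
  have hG2 : 2 ≤ G := by
    obtain ⟨g, hg⟩ := hG
    omega
  -- `s` and `u`
  obtain ⟨s, hs⟩ : ∃ s, s = 1 - p + q * (G - 1) := ⟨_, rfl⟩
  have e6 : W + p ^ 2 = A * (q + p * s) := by
    rw [hW, hY, hs, hXC]; ring
  have e7 : X = A * (q + p - 1 + s) := by rw [hs, hXC]; ring
  have hu : 0 < q + p * s := by
    have : 0 < A * (q + p * s) := by rw [← e6]; positivity
    exact (pos_iff_pos_of_mul_pos this).mp hA
  have hs0 : 0 ≤ s := by
    by_contra hcon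
    push Not at hcon
    have h1 : s ≤ -1 := by linarith
    have h2 : p * s ≤ p * (-1) := by gcongr
    have h3 : q * 1 ≤ q * (G - 1) := by
      apply mul_le_mul_of_nonneg_left _ hq.le
      linarith
    linarith
  have e8 : (1 + p ^ 2 * W) * (q + p * s) ≤ (q + p - 1 + s) * (W + p ^ 2) := by
    calc (1 + p ^ 2 * W) * (q + p * s) ≤ X * (q + p * s) := by
          apply mul_le_mul_of_nonneg_right _ hu.le
          linarith
      _ = (q + p - 1 + s) * (W + p ^ 2) := by rw [e6, e7]; ring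
  have e9 : (p - 1) * (q * (W - 1) * (p + 1) + s * ((p ^ 2 + p + 1) * W - p) - W - p ^ 2) ≤ 0 := by
    linarith
  have e10 : q * (W - 1) * (p + 1) + s * ((p ^ 2 + p + 1) * W - p) - W - p ^ 2 ≤ 0 := by
    by_contra hcon
    push Not at hcon
    have := mul_pos hp1 hcon
    linarith
  have hW0 : 0 ≤ W - 1 := by linarith
  have e11 : 0 ≤ q * (W - 1) * (p + 1) := by positivity
  rcases hs0.eq_or_lt with hs1 | hs1
  · -- `s = 0`
    rw [← hs1] at e6 e7 hs
    have e12 : W + p ^ 2 = A * q := by rw [e6]; ring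
    have e13 : X = G * (W + p ^ 2) := by rw [hXC, e12]; ring
    have hGp : G ≤ p := by
      have h3 : 1 * (G - 1) ≤ q * (G - 1) := by
        have : 0 ≤ G - 1 := by linarith
        gcongr
        linarith
      linarith
    have hGp' : G ≠ p := by
      rintro rfl
      exact (Int.not_even_iff_odd.mpr hpo) hG
    have hGp2 : G ≤ p - 1 := by
      have := lt_of_le_of_ne hGp hGp'
      linarith
    rcases Nat.eq_zero_or_pos N with rfl | hN
    · rw [zero_add] at e4
      have e14 : (W - G) * (p ^ 2 - G) = G ^ 2 - 1 := by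
        rw [e13] at e4
        linear_combination -e4
      have e15 : G ^ 2 ≤ (p - 1) ^ 2 := by gcongr
      have e16 : G ^ 2 - 1 < p ^ 2 - G := by linarith
      have e17 : (2 : ℤ) ^ 2 ≤ G ^ 2 := by gcongr
      have e18 : 0 < p ^ 2 - G := by linarith
      rcases le_or_gt (W - G) 0 with h1 | h1
      · have := mul_nonpos_of_nonpos_of_nonneg h1 e18.le
        linarith
      · have : 1 * (p ^ 2 - G) ≤ (W - G) * (p ^ 2 - G) := by
          apply mul_le_mul_of_nonneg_right _ e18.le
          linarith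
        linarith
    · obtain ⟨N, rfl⟩ : ∃ N', N = N' + 1 := ⟨N - 1, by omega⟩
      have h7 : p ^ 3 ≤ p ^ (N + 1 + 2) := pow_le_pow_right₀ (by linarith) (by omega)
      have e14 : p ^ 3 * W ≤ X - 1 := by rw [e4]; gcongr
      rw [e13] at e14
      have e15 : W * (p ^ 3 - G) ≤ G * p ^ 2 - 1 := by linarith
      have e16 : 0 ≤ p ^ 3 - G := by nlinarith [sq_nonneg p]
      have e17 : 1 * (p ^ 3 - G) ≤ W * (p ^ 3 - G) := by gcongr
      have e18 : G * (p ^ 2 + 1) ≤ (p - 1) * (p ^ 2 + 1) := by gcongr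
      nlinarith [sq_nonneg p]
  · -- `s ≥ 1`
    have e12 : 1 * ((p ^ 2 + p + 1) * W - p) ≤ s * ((p ^ 2 + p + 1) * W - p) := by
      have : 0 ≤ (p ^ 2 + p + 1) * W - p := by
        have : (p ^ 2 + p + 1) * 1 ≤ (p ^ 2 + p + 1) * W := by gcongr
        nlinarith [sq_nonneg p]
      apply mul_le_mul_of_nonneg_right _ this
      linarith
    have e13 : (p ^ 2 + p) * (W - 1) ≤ 0 := by linarith
    have hW2 : W = 1 := by
      by_contra hcon
      have : 0 < W - 1 := by
        have := lt_of_le_of_ne hW1 (Ne.symm hcon)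
        linarith
      have : 0 < (p ^ 2 + p) * (W - 1) := by positivity
      linarith
    subst hW2
    have e14 : s * (p ^ 2 + 1) ≤ 1 * (p ^ 2 + 1) := by linarith
    have hs2 : s ≤ 1 := le_of_mul_le_mul_right e14 (by positivity)
    have hs3 : s = 1 := by linarith
    subst hs3
    have e15 : X * (q + p) = (p ^ 2 + 1) * (q + p) := by
      have : X * (q + p) = (q + p) * (A * (q + p * 1)) := by rw [e7]; ring
      rw [this, ← e6]; ring
    have e16 : X = p ^ 2 + 1 := mul_right_cancel₀ (by positivity) e15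
    obtain ⟨r, hr⟩ := hpo
    obtain ⟨x, hx⟩ := hX4
    rw [hx, hr] at e16
    have : 4 * (x - r ^ 2 - r) = 2 := by linear_combination e16
    omega

theorem two_pow_odd {a : ℕ} (h : Odd ((2 : ℤ) ^ a)) : (2 : ℤ) ^ a = 1 := by
  rcases Nat.eq_zero_or_pos a with rfl | ha
  · simp
  · exfalso
    rw [Int.odd_pow' (by omega)] at h
    exact absurd h (by decide)

theorem two_pow_le_half {a k : ℕ} (h : a ≤ k) : 2 * (2 : ℤ) ^ a ≤ 2 ^ (k + 1) := by
  have : (2 : ℤ) ^ a ≤ 2 ^ k := pow_le_pow_right₀ (by norm_num) h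
  rw [pow_succ]; linarith

theorem two_pow_add {a c k : ℕ} (h : a < c) (hc : c ≤ k) :
    4 * ((2 : ℤ) ^ a + 2 ^ c) ≤ 3 * 2 ^ (k + 1) := by
  have h1 : (2 : ℤ) ^ (a + 1) ≤ 2 ^ c := pow_le_pow_right₀ (by norm_num) h
  have h2 := two_pow_le_half hc
  rw [pow_succ] at h1
  linarith

theorem two_pow_add' {a c k : ℕ} (h : a ≠ c) (ha : a ≤ k) (hc : c ≤ k) :
    4 * ((2 : ℤ) ^ a + 2 ^ c) ≤ 3 * 2 ^ (k + 1) := by
  rcases lt_or_gt_of_ne h with h1 | h1
  · exact two_pow_add h1 hc
  · rw [add_comm ((2 : ℤ) ^ a)]; exact two_pow_add h1 ha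

theorem two_pow_split {a k : ℕ} (h : a ≤ k) :
    ∃ E : ℤ, Even E ∧ 2 ≤ E ∧ (2 : ℤ) ^ (k + 1) = 2 ^ a * E := by
  refine ⟨2 ^ (k + 1 - a), ?_, ?_, ?_⟩
  · rw [Int.even_pow]
    exact ⟨by decide, by omega⟩
  · calc (2 : ℤ) = 2 ^ 1 := by norm_num
      _ ≤ 2 ^ (k + 1 - a) := pow_le_pow_right₀ (by norm_num) (by omega)
  · rw [← pow_add]; congr 1; omega

/-- The sub-case `a = 0`, `b = d = 2` of exponent `m = 2`. -/
theorem caseM1_22 {p X C G : ℤ} (hp : 3 ≤ p) (hpo : Odd p) (hX : 2 * p + 2 ≤ X) (hX4 : 4 ∣ X)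
    (hC : 0 < C) (hG : Even G) (hXC : X = C * G)
    (h : (X - p) * (1 + p) = 1 + 1 * p ^ 2 + C * p ^ 2) : False := by
  obtain ⟨Z, hZ⟩ : ∃ Z, Z = X - p - (p - 1) * (1 + C) := ⟨_, rfl⟩
  have e1 : (p + 1) * Z = 2 + C := by rw [hZ]; linear_combination h
  have hZ1 : 0 < Z := by
    have : 0 < (p + 1) * Z := by rw [e1]; linarith
    exact (pos_iff_pos_of_mul_pos this).mp (by linarith)
  have e2 : C * (G - p + 1) = Z + 2 * p - 1 := by rw [hZ, hXC]; ring
  have e3 : 0 < G - p + 1 := by
    have h0 : 0 < C * (G - p + 1) := by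
      rw [e2]; linarith
    exact (pos_iff_pos_of_mul_pos h0).mp hC
  have e4 : G ≠ p := by
    rintro rfl
    exact (Int.not_even_iff_odd.mpr hpo) hG
  have e5 : p + 1 ≤ G := by
    have : p ≤ G := by linarith
    have := lt_of_le_of_ne this e4.symm
    linarith
  have e6 : C * 2 ≤ Z + 2 * p - 1 := by
    rw [← e2]
    apply mul_le_mul_of_nonneg_left _ hC.le
    linarith
  have e7 : (2 * p + 1) * Z ≤ 2 * p + 3 := by linarith
  have e8 : Z = 1 := by
    by_contra hcon
    have : 2 ≤ Z := by omega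
    have : (2 * p + 1) * 2 ≤ (2 * p + 1) * Z := by
      have : 0 ≤ 2 * p + 1 := by linarith
      gcongr
    linarith
  subst e8
  have e9 : C = p - 1 := by linarith
  have e10 : X = p ^ 2 + 1 := by
    rw [e9] at hZ
    linear_combination -hZ
  obtain ⟨r, hr⟩ := hpo
  obtain ⟨x, hx⟩ := hX4
  rw [hx, hr] at e10
  have : 4 * (x - r ^ 2 - r) = 2 := by linear_combination e10
  omega

theorem parity_two {P X A C : ℤ} {d : ℕ} (hpo' : Odd P)
    (hAodd : Odd A → A = 1) (hCodd : Odd C → C = 1)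
    (h : (X - P) * (1 + P) = 1 + A * P ^ 2 + C * P ^ d) : A = 1 ∨ C = 1 := by
  rcases Int.even_or_odd A with hAe | hAo
  · rcases Int.even_or_odd C with hCe | hCo
    · exfalso
      have h1 : Even ((X - P) * (1 + P)) := (hpo'.one_add).mul_left _
      have h2 : Even (A * P ^ 2 + C * P ^ d) := (hAe.mul_right _).add (hCe.mul_right _)
      rw [h, add_assoc] at h1
      have h3 : Even (1 : ℤ) := (Int.even_add.mp h1).mpr h2
      exact absurd h3 (by decide)
    · exact Or.inr (hCodd hCo)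
  · exact Or.inl (hAodd hAo)

/-- Exponent `m = 2`: the only solutions are `n = 18, 36, 200`. -/
theorem main_two {p k a b c d : ℕ} (hp : 3 ≤ p) (hpo : Odd p) (ha : a ≤ k)
    (hb : b ≤ 2) (hc : c ≤ k) (hdb : d ≤ b) (hne : ¬ (a = c ∧ b = d))
    (h : ((2 : ℤ) ^ (k + 1) - p) * (1 + p) = 1 + 2 ^ a * p ^ b + 2 ^ c * p ^ d) :
    (p = 3 ∧ k = 1) ∨ (p = 3 ∧ k = 2) ∨ (p = 5 ∧ k = 3) := by
  have hp' : (3 : ℤ) ≤ p := by exact_mod_cast hp
  have hpo' : Odd (p : ℤ) := by exact_mod_cast hpo
  have hA0 : (0 : ℤ) < 2 ^ a := by positivity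
  have hC0 : (0 : ℤ) < 2 ^ c := by positivity
  have hA2 := two_pow_le_half ha
  have hC2 := two_pow_le_half hc
  have hXeven : Even ((2 : ℤ) ^ (k + 1)) := by rw [Int.even_pow]; exact ⟨by decide, by omega⟩
  have hAodd := @two_pow_odd a
  have hCodd := @two_pow_odd c
  obtain ⟨E, hE, hE2, hXA⟩ := two_pow_split ha
  obtain ⟨G, hG, hG2, hXC⟩ := two_pow_split hc
  have hACne : b = d → 4 * ((2 : ℤ) ^ a + 2 ^ c) ≤ 3 * 2 ^ (k + 1) := fun hbd =>
    two_pow_add' (fun hac => hne ⟨hac, hbd⟩) ha hc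
  have hk : ∀ j : ℕ, (2 : ℤ) ^ (k + 1) = 2 ^ j → k + 1 = j := fun j hj => by
    have : (2 : ℕ) ^ (k + 1) = 2 ^ j := by exact_mod_cast hj
    exact Nat.pow_right_injective (le_refl 2) this
  have hX4 : 1 ≤ k → (4 : ℤ) ∣ 2 ^ (k + 1) := fun hk1 => by
    have : (2 : ℤ) ^ 2 ∣ 2 ^ (k + 1) := pow_dvd_pow _ (by omega)
    simpa using this
  have hXk : k = 0 → (2 : ℤ) ^ (k + 1) = 2 := by rintro rfl; norm_num
  generalize hX : (2 : ℤ) ^ (k + 1) = X at *
  generalize hA : (2 : ℤ) ^ a = A at *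
  generalize hC : (2 : ℤ) ^ c = C at *
  generalize hP : (p : ℤ) = P at *
  have hP0 : 0 < P := by linarith
  have ht0 : 0 < X - P := by
    have : 0 < (X - P) * (1 + P) := by rw [h]; positivity
    exact (pos_iff_pos_of_mul_pos this).mpr (by linarith)
  have hto : Odd (X - P) := Even.sub_odd hXeven hpo'
  rcases lt_or_ge (X - P) P with hlt | hge
  · -- Case I
    interval_cases b
    · interval_cases d
      simp only [pow_zero, mul_one] at h
      have h1 := hACne rfl
      have h2 : X - P = 1 := by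
        by_contra hcon
        have : 2 ≤ X - P := by omega
        nlinarith
      have h3 : P = 3 := by
        rw [h2] at h
        linarith
      have h4 : X = 2 ^ 2 := by linarith
      have h5 := hk 2 h4
      left
      refine ⟨?_, by omega⟩
      have : (p : ℤ) = 3 := by rw [hP, h3]
      exact_mod_cast this
    · exfalso
      interval_cases d
      · simp only [pow_zero, mul_one, pow_one] at h
        have hdvd : P ∣ (X - P) - (1 + C) := ⟨A - (X - P), by linear_combination h⟩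
        have ht : X - P = 1 + C := eq_of_dvd_sub hdvd (by linarith) (by linarith)
        have h2 : X - P = A := by
          have : P * (X - P) = P * A := by linear_combination h - ht
          exact mul_left_cancel₀ hP0.ne' this
        rw [h2] at hto
        have := hAodd hto
        linarith
      · have h1 := hACne rfl
        simp only [pow_one] at h
        have hdvd : P ∣ (X - P) - 1 := ⟨A + C - (X - P), by linear_combination h⟩
        have ht : X - P = 1 := eq_of_dvd_sub hdvd (by linarith) (by linarith)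
        have h2 : P * 1 = P * (A + C) := by linear_combination h - ht * (1 + P)
        have := mul_left_cancel₀ hP0.ne' h2
        linarith
    · exfalso
      interval_cases d
      · simp only [pow_zero, mul_one] at h
        have hdvd : P ∣ (X - P) - (1 + C) := ⟨A * P - (X - P), by linear_combination h⟩
        have ht : X - P = 1 + C := eq_of_dvd_sub hdvd (by linarith) (by linarith)
        have h2 : X - P = A * P := by
          have : P * (X - P) = P * (A * P) := by linear_combination h - ht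
          exact mul_left_cancel₀ hP0.ne' this
        nlinarith
      · simp only [pow_one] at h
        have hdvd : P ∣ (X - P) - 1 := ⟨A * P + C - (X - P), by linear_combination h⟩
        have ht : X - P = 1 := eq_of_dvd_sub hdvd (by linarith) (by linarith)
        have h2 : P * 1 = P * (A * P + C) := by linear_combination h - ht * (1 + P)
        have := mul_left_cancel₀ hP0.ne' h2
        nlinarith
      · have hdvd : P ∣ (X - P) - 1 := ⟨A * P + C * P - (X - P), by linear_combination h⟩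
        have ht : X - P = 1 := eq_of_dvd_sub hdvd (by linarith) (by linarith)
        have h2 : P * 1 = P * (A * P + C * P) := by linear_combination h - ht * (1 + P)
        have := mul_left_cancel₀ hP0.ne' h2
        nlinarith
  · -- Case II
    have hXne : X ≠ 2 * P := by
      intro hcon
      have : X - P = P := by linarith
      have h1 : (2 : ℤ) ^ k = P := by
        have : (2 : ℤ) * 2 ^ k = 2 * P := by rw [← hcon, ← hX]; ring
        linarith
      rw [← h1] at hpo' 
      have := two_pow_odd hpo'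
      linarith
    have hX2 : 2 * P + 2 ≤ X := by
      have : 2 * P < X := lt_of_le_of_ne (by linarith) hXne.symm
      obtain ⟨x, hx⟩ := hXeven
      omega
    have hk1 : 1 ≤ k := by
      rcases Nat.eq_zero_or_pos k with h0 | h0
      · have := hXk h0
        linarith
      · exact h0
    have hX4' := hX4 hk1
    -- parity
    have hpar : b = 2 → A = 1 ∨ C = 1 := by
      rintro rfl
      exact parity_two hpo' hAodd hCodd h
    interval_cases b
    · exfalso
      interval_cases d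
      have := hACne rfl
      simp only [pow_zero, mul_one] at h
      nlinarith
    · exfalso
      interval_cases d
      · simp only [pow_zero, mul_one, pow_one] at h
        have e1 : X - 1 - C = P * (A - X + 1 + P) := by linear_combination h
        have e2 : P * (A - X + 1 + P) ≤ 0 :=
          mul_nonpos_of_nonneg_of_nonpos hP0.le (by linarith)
        linarith
      · have hACne := hACne rfl
        simp only [pow_one] at h
        obtain ⟨V, hV⟩ : ∃ V, V = A + C + 1 + P - X := ⟨_, rfl⟩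
        have e1 : X - 1 = P * V := by rw [hV]; linear_combination h
        have hV3 : 3 ≤ V := by
          by_contra hcon
          have : V ≤ 2 := by omega
          have : P * V ≤ P * 2 := by gcongr
          linarith
        have e2 : P * (4 * V) ≤ P * (4 * P + 4 - X) := by
          apply mul_le_mul_of_nonneg_left _ hP0.le
          linarith
        have hV4 : V ≤ 3 := by
          by_contra hcon
          have : 4 ≤ V := by omega
          have h4 : P * 4 ≤ P * V := by gcongr
          have : P * (4 * P + 4 - X) ≤ P * 3 := by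
            apply mul_le_mul_of_nonneg_left _ hP0.le
            linarith
          linarith
        have hV5 : V = 3 := le_antisymm hV4 hV3
        subst hV5
        have e3 : A + C = 2 * (P + 1) + 1 := by linarith
        rcases Int.even_or_odd A with hAe | hAo
        · have hCo : Odd C := by
            have : Odd (A + C) := ⟨P + 1, e3⟩
            rcases Int.even_or_odd C with h1 | h1
            · exact absurd this (Int.not_odd_iff_even.mpr (hAe.add h1))
            · exact h1
          have := hCodd hCo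
          linarith
        · have := hAodd hAo
          linarith
    · have hp2 := hpar rfl
      obtain ⟨Y, hY⟩ : ∃ Y, Y = X - P - (P - 1) * A := ⟨_, rfl⟩
      interval_cases d
      · simp only [pow_zero, mul_one] at h
        have e1 : (P + 1) * Y = 1 + A + C := by rw [hY]; linear_combination h
        have hY1 : 0 < Y := by
          have : 0 < (P + 1) * Y := by rw [e1]; linarith
          exact (pos_iff_pos_of_mul_pos this).mp (by linarith)
        obtain ⟨hb1, -⟩ := caseII_A_bound hp' hpo' hA0 hE hXA hY hY1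
        rcases hp2 with hA1 | hC1
        · exfalso
          rw [hA1] at e1 hY
          have e2 : (2 * P + 1) * Y ≤ 2 * P + 3 := by linarith
          have hY2 : Y = 1 := by
            by_contra hcon
            have : 2 ≤ Y := by omega
            have : (2 * P + 1) * 2 ≤ (2 * P + 1) * Y := by
              have : 0 ≤ 2 * P + 1 := by linarith
              gcongr
            linarith
          linarith
        · rw [hC1] at e1
          have e2 : (2 * P + 1) * Y ≤ P + 4 := by linarith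
          have hY2 : Y = 1 := by
            by_contra hcon
            have : 2 ≤ Y := by omega
            have : (2 * P + 1) * 2 ≤ (2 * P + 1) * Y := by
              have : 0 ≤ 2 * P + 1 := by linarith
              gcongr
            linarith
          rw [hY2] at e1 e2
          have hP3 : P = 3 := by linarith
          rw [hP3] at e1
          have hA3 : A = 2 := by linarith
          rw [hY2, hP3, hA3] at hY
          have h4 : X = 2 ^ 3 := by linarith
          have h5 := hk 3 h4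
          right; left
          refine ⟨?_, by omega⟩
          have : (p : ℤ) = 3 := by rw [hP, hP3]
          exact_mod_cast this
      · simp only [pow_one] at h
        have e1 : (P + 1) * Y = 1 + A + C * P := by rw [hY]; linear_combination h
        have hY1 : 0 < Y := by
          have h0 : 0 < C * P := by positivity
          have : 0 < (P + 1) * Y := by rw [e1]; linarith
          exact (pos_iff_pos_of_mul_pos this).mp (by linarith)
        obtain ⟨hb1, -⟩ := caseII_A_bound hp' hpo' hA0 hE hXA hY hY1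
        rcases hp2 with hA1 | hC1
        · rw [hA1] at e1 hY
          have e2 : C - 2 = (P + 1) * (2 * P - 1 - C * (G - 1)) := by
            rw [hXC] at hY
            rw [hY] at e1
            linear_combination e1
          obtain ⟨l, hl⟩ : ∃ l, l = 2 * P - 1 - C * (G - 1) := ⟨_, rfl⟩
          rw [← hl] at e2
          have hl0 : 0 ≤ l := by
            by_contra hcon
            have : l ≤ -1 := by omega
            have : (P + 1) * l ≤ (P + 1) * (-1) := by
              have : 0 ≤ P + 1 := by linarith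
              gcongr
            linarith
          rcases hl0.eq_or_lt with h0 | h0
          · exfalso
            rw [← h0] at e2 hl
            have hC2' : C = 2 := by linarith
            rw [hC2'] at hl
            omega
          · have hl1 : 1 ≤ l := by omega
            have e3 : (P + 1) * 1 ≤ (P + 1) * l := by
              have : 0 ≤ P + 1 := by linarith
              gcongr
            have hGe : G = 2 := by
              by_contra hcon
              have : 3 ≤ G := by omega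
              have : C * 2 ≤ C * (G - 1) := by
                apply mul_le_mul_of_nonneg_left _ hC0.le
                linarith
              linarith
            rw [hGe] at hl hXC
            have hl2 : l = 1 := by
              by_contra hcon
              have : 2 ≤ l := by omega
              have : (P + 1) * 2 ≤ (P + 1) * l := by
                have : 0 ≤ P + 1 := by linarith
                gcongr
              linarith
            rw [hl2] at hl e2
            have hP5 : P = 5 := by linarith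
            have h4 : X = 2 ^ 4 := by linarith
            have h5 := hk 4 h4
            right; right
            refine ⟨?_, by omega⟩
            have : (p : ℤ) = 5 := by rw [hP, hP5]
            exact_mod_cast this
        · exfalso
          rw [hC1] at e1
          have e2 : (2 * P + 1) * (Y - 1) ≤ P + 1 := by linarith
          have hY2 : Y = 1 := by
            by_contra hcon
            have : 2 ≤ Y := by omega
            have : (2 * P + 1) * 1 ≤ (2 * P + 1) * (Y - 1) := by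
              apply mul_le_mul_of_nonneg_left _ (by linarith)
              linarith
            linarith
          rw [hY2] at e1
          linarith
      · exfalso
        rcases hp2 with hA1 | hC1
        · rw [hA1] at h
          exact caseM1_22 hp' hpo' hX2 hX4' hC0 hG hXC h
        · rw [hC1] at h
          exact caseM1_22 hp' hpo' hX2 hX4' hA0 hE hXA (by rw [h]; ring)

/-- Exponent `m ≥ 3`. -/
theorem main_three {p k M a b c d : ℕ} (hp : 3 ≤ p) (hpo : Odd p) (hM : 2 ≤ M) (ha : a ≤ k)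
    (hb : b ≤ M + 1) (hc : c ≤ k) (hdb : d ≤ b) (hne : ¬ (a = c ∧ b = d))
    (h : ((2 : ℤ) ^ (k + 1) - p) * S p M = 1 + 2 ^ a * p ^ b + 2 ^ c * p ^ d) :
    M = 2 ∧ (p : ℤ) = 2 ^ (k + 1) - 1 := by
  have hp' : (3 : ℤ) ≤ p := by exact_mod_cast hp
  have hpo' : Odd (p : ℤ) := by exact_mod_cast hpo
  have hA0 : (0 : ℤ) < 2 ^ a := by positivity
  have hC0 : (0 : ℤ) < 2 ^ c := by positivity
  have hA2 := two_pow_le_half ha
  have hC2 := two_pow_le_half hc
  have hXeven : Even ((2 : ℤ) ^ (k + 1)) := by rw [Int.even_pow]; exact ⟨by decide, by omega⟩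
  obtain ⟨E, hE, hE2, hXA⟩ := two_pow_split ha
  obtain ⟨G, hG, hG2, hXC⟩ := two_pow_split hc
  have hACne : b = d → 4 * ((2 : ℤ) ^ a + 2 ^ c) ≤ 3 * 2 ^ (k + 1) := fun hbd =>
    two_pow_add' (fun hac => hne ⟨hac, hbd⟩) ha hc
  have hX4 : 1 ≤ k → (4 : ℤ) ∣ 2 ^ (k + 1) := fun hk1 => by
    have : (2 : ℤ) ^ 2 ∣ 2 ^ (k + 1) := pow_dvd_pow _ (by omega)
    simpa using this
  have hXk : k = 0 → (2 : ℤ) ^ (k + 1) = 2 := by rintro rfl; norm_num
  have hACeq : (2 : ℤ) ^ a = 2 ^ c → a = c := fun hj => by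
    have : (2 : ℕ) ^ a = 2 ^ c := by exact_mod_cast hj
    exact Nat.pow_right_injective (le_refl 2) this
  have hdvd : a ≤ c → (2 : ℤ) ^ a ∣ 2 ^ c := fun hac => pow_dvd_pow _ hac
  have hdvd' : c ≤ a → (2 : ℤ) ^ c ∣ 2 ^ a := fun hac => pow_dvd_pow _ hac
  have hlt2 : c < a → 2 * (2 : ℤ) ^ c ≤ 2 ^ a := fun hca => by
    have : (2 : ℤ) ^ (c + 1) ≤ 2 ^ a := pow_le_pow_right₀ (by norm_num) hca
    rw [pow_succ] at this; linarith
  generalize hX : (2 : ℤ) ^ (k + 1) = X at *
  generalize hA : (2 : ℤ) ^ a = A at *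
  generalize hC : (2 : ℤ) ^ c = C at *
  generalize hP : (p : ℤ) = P at *
  have hP0 : 0 < P := by linarith
  have ht0 : 0 < X - P := by
    have : 0 < (X - P) * S P M := by rw [h]; positivity
    exact (pos_iff_pos_of_mul_pos this).mpr (by linarith [S_pos hP0 M])
  rcases lt_or_ge (X - P) P with hlt | hge
  · have := caseI hp' ht0 hlt (by linarith) (by linarith) (by linarith) hM hdb
      (fun hh => hne ⟨hACeq hh.1, hh.2⟩) h
    exact ⟨this.1, by linarith [this.2.1]⟩
  · exfalso
    have hXne : X ≠ 2 * P := by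
      intro hcon
      have : X - P = P := by linarith
      have h1 : (2 : ℤ) ^ k = P := by
        have : (2 : ℤ) * 2 ^ k = 2 * P := by rw [← hcon, ← hX]; ring
        linarith
      rw [← h1] at hpo' 
      have := two_pow_odd hpo'
      linarith
    have hX2 : 2 * P + 2 ≤ X := by
      have : 2 * P < X := lt_of_le_of_ne (by linarith) hXne.symm
      obtain ⟨x, hx⟩ := hXeven
      omega
    have hk1 : 1 ≤ k := by
      rcases Nat.eq_zero_or_pos k with h0 | h0
      · have := hXk h0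
        linarith
      · exact h0
    have hX4' := hX4 hk1
    obtain ⟨N, rfl⟩ : ∃ N, M = N + 2 := ⟨M - 2, by omega⟩
    rcases lt_trichotomy b (N + 2) with hbM | hbM | hbM
    · exact caseII_low (N := N + 1) hp' (by linarith) hA2 hC2 hA0 hC0 (by omega) (by omega) h
    · subst hbM
      rcases hdb.eq_or_lt with hd | hd
      · subst hd
        exact caseII_B2 hp' hX2 hM (hACne rfl) h
      · exact caseII_B1 (N := N + 1) hp' hX2 hA2 hC2 hC0 (by omega) h
    · have hbM' : b = N + 2 + 1 := by omega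
      subst hbM'
      have key : P ^ (N + 2 + 1) * (X - P - (P - 1) * A) = X - 1 + (P - 1) * C * P ^ d := by
        have hS := S_mul P (N + 2)
        have e1 : (X - P) * (P ^ (N + 2 + 1) - 1) =
            (P - 1) * (1 + A * P ^ (N + 2 + 1) + C * P ^ d) := by
          rw [← hS, ← h]; ring
        linear_combination e1
      rcases hdb.eq_or_lt with hd | hd
      · subst hd
        rcases Nat.le_total a c with hac | hac
        · exact caseII_A_eq hp' hpo' hX2 hM hA0 hC0 (hdvd hac) hXA hG hXC key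
        · have key' : P ^ (N + 2 + 1) * (X - P - (P - 1) * C) =
              X - 1 + (P - 1) * A * P ^ (N + 2 + 1) := by linear_combination key
          exact caseII_A_eq hp' hpo' hX2 hM hC0 hA0 (hdvd' hac) hXC hE hXA key'
      · rcases (Nat.lt_succ_iff.mp hd).eq_or_lt with hd1 | hd1
        · subst hd1
          rcases Nat.lt_or_ge c a with hac | hac
          · exact caseII_A_1a hp' hpo' hX2 hA0 hC0 hE hXA (hlt2 hac) key
          · obtain ⟨q, hq⟩ := hdvd hac
            have hq0 : 0 < q := by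
              rw [hq] at hC0
              exact (pos_iff_pos_of_mul_pos hC0).mp hA0
            rw [hq] at key hXC
            exact caseII_A_1b hp' hpo' hX2 hX4' hA0 hq0 hG hXC key
        · rcases (Nat.lt_succ_iff.mp hd1).eq_or_lt with hd2 | hd2
          · subst hd2
            exact caseII_A_2 hp' hpo' hX2 hA0 hC0 hE hXA hC2 key
          · exact caseII_A_3 hp' hpo' hX2 (by omega) hA0 hC0 hE hXA hC2 key

end Pool.Agent.R464.TwoNear
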