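import Mathlib
import Pool.Agent.R464.TwoNear

/-!
# 2-near perfect numbers `2 ^ k * p ^ m`: from divisor sums to the exponential equation
-/

set_option autoImplicit false

namespace Pool.Agent.R464.TwoNear

theorem exists_exp {k m p d : ℕ} (hp : p.Prime) (h : d ∣ 2 ^ k * p ^ m) :
    ∃ a ≤ k, ∃ b ≤ m, d = 2 ^ a * p ^ b := by
  obtain ⟨x, y, hx, hy, rfl⟩ := (Nat.dvd_mul).mp h
  obtain ⟨a, ha, rfl⟩ := (Nat.dvd_prime_pow Nat.prime_two).mp hx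
  obtain ⟨b, hb, rfl⟩ := (Nat.dvd_prime_pow hp).mp hy
  exact ⟨a, ha, b, hb, rfl⟩

theorem sum_div {k m p : ℕ} (hp : p.Prime) (hpo : Odd p) :
    ((∑ d ∈ (2 ^ k * p ^ m).divisors, d : ℕ) : ℤ) = (2 ^ (k + 1) - 1) * S p m := by
  have hcop : Nat.Coprime (2 ^ k) (p ^ m) := by
    apply Nat.Coprime.pow
    exact (Nat.coprime_two_left (n := p)).mpr hpo
  rw [Nat.Coprime.sum_divisors_mul hcop, Nat.sum_divisors_prime_pow Nat.prime_two,
    Nat.sum_divisors_prime_pow hp]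
  push_cast
  rw [S_eq_sum, ← S_eq_sum 2]
  have := S_mul 2 k
  have h2 : S 2 k = 2 ^ (k + 1) - 1 := by linarith
  rw [h2]

theorem classification {p k m d₁ d₂ : ℕ} (hp : p.Prime) (hpo : Odd p) (hm : 2 ≤ m)
    (h1 : d₁ ∣ 2 ^ k * p ^ m) (h2 : d₂ ∣ 2 ^ k * p ^ m) (hne : d₁ ≠ d₂)
    (h : ∑ d ∈ (2 ^ k * p ^ m).divisors, d = 2 * (2 ^ k * p ^ m) + d₁ + d₂) :
    (m = 2 ∧ ((p = 3 ∧ k = 1) ∨ (p = 3 ∧ k = 2) ∨ (p = 5 ∧ k = 3))) ∨
      (m = 3 ∧ p = 2 ^ (k + 1) - 1) := by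
  obtain ⟨a, ha, b, hb, rfl⟩ := exists_exp hp h1
  obtain ⟨c, hc, d, hd, rfl⟩ := exists_exp hp h2
  have hp3 : 3 ≤ p := by
    have := hp.two_le
    obtain ⟨r, hr⟩ := hpo
    omega
  obtain ⟨M, rfl⟩ : ∃ M, m = M + 1 := ⟨m - 1, by omega⟩
  have h' := sum_div (k := k) (m := M + 1) hp hpo
  rw [h] at h'
  push_cast at h'
  have key : ((2 : ℤ) ^ (k + 1) - p) * S p M = 1 + 2 ^ a * p ^ b + 2 ^ c * p ^ d := by
    have e1 : S (p : ℤ) (M + 1) = 1 + p * S p M := rfl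
    have e2 := S_succ' (p : ℤ) M
    have e3 : (2 : ℤ) ^ (k + 1) * S p (M + 1) = 2 ^ (k + 1) * (S p M + p ^ (M + 1)) := by rw [e2]
    have e4 : (2 : ℤ) ^ (k + 1) = 2 * 2 ^ k := by ring
    have e5 : ((2 : ℤ) ^ (k + 1) - 1) * S p (M + 1) =
        2 ^ (k + 1) * (S p M + p ^ (M + 1)) - (1 + p * S p M) := by rw [sub_mul, e3, one_mul, e1]
    rw [e5] at h'
    rw [e4] at h' ⊢
    linear_combination -h'
  -- reorder so that `d ≤ b`
  have main : ∀ a b c d : ℕ, a ≤ k → b ≤ M + 1 → c ≤ k → d ≤ b → ¬ (a = c ∧ b = d) →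
      ((2 : ℤ) ^ (k + 1) - p) * S p M = 1 + 2 ^ a * p ^ b + 2 ^ c * p ^ d →
      (M + 1 = 2 ∧ ((p = 3 ∧ k = 1) ∨ (p = 3 ∧ k = 2) ∨ (p = 5 ∧ k = 3))) ∨
      (M + 1 = 3 ∧ p = 2 ^ (k + 1) - 1) := by
    intro a b c d ha hb hc hdb hne key
    rcases Nat.lt_or_ge M 2 with hM | hM
    · have hM1 : M = 1 := by omega
      subst hM1
      left
      refine ⟨rfl, ?_⟩
      have e1 : S (p : ℤ) 1 = 1 + p := by simp [S]
      rw [e1] at key
      exact main_two hp3 hpo ha hb hc hdb hne key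
    · right
      obtain ⟨h3, h4⟩ := main_three hp3 hpo hM ha hb hc hdb hne key
      refine ⟨by omega, ?_⟩
      have : (p : ℤ) + 1 = (2 : ℤ) ^ (k + 1) := by linarith
      have : p + 1 = 2 ^ (k + 1) := by exact_mod_cast this
      omega
  rcases Nat.le_total d b with hdb | hdb
  · exact main a b c d ha hb hc hdb (fun hh => hne (by rw [hh.1, hh.2])) key
  · exact main c d a b hc hd ha hdb (fun hh => hne (by rw [hh.1, hh.2])) (by rw [key]; ring)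

/-- The Mersenne family. -/
theorem mersenne_family {p k : ℕ} (hp : p.Prime) (hk : p = 2 ^ (k + 1) - 1) :
    ∑ d ∈ (2 ^ k * p ^ 3).divisors, d = 2 * (2 ^ k * p ^ 3) + p + p ^ 2 := by
  have h2k : 1 ≤ 2 ^ (k + 1) := Nat.one_le_two_pow
  have hpo : Odd p := by
    rw [hk]
    apply Nat.Even.sub_odd h2k
    · rw [Nat.even_pow]; exact ⟨even_two, by omega⟩
    · exact odd_one
  have h1 := sum_div (k := k) (m := 3) hp hpo
  have h2 : (p : ℤ) = 2 ^ (k + 1) - 1 := by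
    rw [hk]; push_cast [h2k]; ring
  zify
  zify at h1
  rw [h1]
  have e1 : S (p : ℤ) 3 = 1 + p * (1 + p * (1 + p * 1)) := rfl
  rw [e1]
  have h3 : (2 : ℤ) ^ (k + 1) = p + 1 := by linarith
  have h4 : (2 : ℤ) * 2 ^ k = p + 1 := by rw [← h3]; ring
  rw [h3]
  linear_combination (-(p : ℤ) ^ 3) * h4

/-- A power of two is never 2-near perfect. -/
theorem not_two_pow {n d₁ d₂ : ℕ}
    (h : ∑ d ∈ (2 ^ n).divisors, d = 2 * 2 ^ n + d₁ + d₂) : False := by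
  rw [Nat.sum_divisors_prime_pow Nat.prime_two] at h
  have h2 := S_mul 2 n
  rw [S_eq_sum] at h2
  have h3 : ((∑ i ∈ Finset.range (n + 1), 2 ^ i : ℕ) : ℤ) = 2 * 2 ^ n + d₁ + d₂ := by
    rw [h]; push_cast; ring
  push_cast at h3
  have h4 : (2 : ℤ) ^ (n + 1) = 2 * 2 ^ n := by ring
  rw [h3, h4] at h2
  have h5 : (0 : ℤ) ≤ d₁ := by positivity
  have h6 : (0 : ℤ) ≤ d₂ := by positivity
  linarith

end Pool.Agent.R464.TwoNear
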